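import Pool.Agent.J4H58.OC.Stm3
import Pool.Agent.J4H98.OC.Var
import Pool.Agent.H988R2.Gauss

/-!
# The law has a log-concave density (project OC, job DEN)
-/

set_option autoImplicit false

namespace Pool.Agent.J4H52.OC

open MeasureTheory Set Filter Topology
open Pool.Agent.J4H58.OC
open scoped ENNReal
open Pool.Agent.W695.KH (Eu)

variable {w : ℝ → ℝ} {n : ℕ}

theorem w_meas (h : LD w) : Measurable w := by
  refine measurable_of_Ioi fun c => ?_
  rcases lt_or_ge c 0 with hc | hc
  · have : w ⁻¹' Ioi c = univ := by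
      ext x
      simp only [mem_preimage, mem_Ioi, mem_univ, iff_true]
      exact hc.trans_le (h.nonneg x)
    rw [this]
    exact MeasurableSet.univ
  · apply OrdConnected.measurableSet
    apply Convex.ordConnected
    intro x hx y hy a b ha hb hab
    simp only [mem_preimage, mem_Ioi] at hx hy ⊢
    rcases ha.eq_or_lt with h0 | h0
    · subst h0
      have : b = 1 := by linarith
      simpa [this] using hy
    rcases hb.eq_or_lt with h1 | h1
    · subst h1
      have : a = 1 := by linarith
      simpa [this] using hx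
    have hb1 : b < 1 := by linarith
    have ea : a = 1 - b := by linarith
    have hl := h.logc x y b h1 hb1
    rw [← ea] at hl
    refine lt_of_lt_of_le ?_ hl
    rcases hc.eq_or_lt with h2 | h2
    · rw [← h2] at hx hy ⊢
      exact mul_pos (Real.rpow_pos_of_pos hx _) (Real.rpow_pos_of_pos hy _)
    · have e : c = c ^ a * c ^ b := by
        rw [← Real.rpow_add h2, hab, Real.rpow_one]
      calc c = c ^ a * c ^ b := e
        _ < w x ^ a * w y ^ b := by
            apply mul_lt_mul (Real.rpow_lt_rpow hc hx h0)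
              (Real.rpow_le_rpow hc hy.le hb) (Real.rpow_pos_of_pos h2 _)
              (Real.rpow_nonneg (h.nonneg x) _)

theorem ord_closed (R : Fin n → Fin n → Prop) : IsClosed (ord R) := by
  unfold ord
  simp only [setOf_forall]
  refine isClosed_iInter fun i => isClosed_iInter fun j => isClosed_iInter fun _ => ?_
  exact isClosed_le (continuous_apply i) (continuous_apply j)

theorem pn_eq (h : LD w) (n : ℕ) :
    pn w n = (volume : Measure (Fin n → ℝ)).withDensity
      fun y => ∏ i, ENNReal.ofReal (w (y i)) := by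
  unfold pn nu
  have := J4H98.OC.nu_prob h
  unfold nu at this
  exact H988R2.pi_withDensity_real (fun _ x => ENNReal.ofReal (w x))
    (fun _ => (w_meas h).ennreal_ofReal) (fun _ => inferInstance)

open Classical in
/-- the density -/
noncomputable def rho (w : ℝ → ℝ) (R : Fin n → Fin n → Prop) (x : Eu (Fin n)) : ℝ :=
  if WithLp.ofLp x ∈ ord R then ((pn w n) (ord R)).toReal⁻¹ * ∏ i, w (x i) else 0

theorem rho_nonneg (h : LD w) (R : Fin n → Fin n → Prop) (x : Eu (Fin n)) : 0 ≤ rho w R x := by
  unfold rho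
  split_ifs
  · exact mul_nonneg (inv_nonneg.2 ENNReal.toReal_nonneg) (Finset.prod_nonneg fun i _ => h.nonneg _)
  · exact le_rfl

theorem rho_meas (h : LD w) (R : Fin n → Fin n → Prop) : Measurable (rho w R) := by
  classical
  unfold rho
  refine Measurable.ite ?_ ?_ measurable_const
  · exact (ord_closed R).measurableSet.preimage (PiLp.continuous_ofLp 2 _).measurable
  · refine Measurable.const_mul ?_ _
    refine Finset.measurable_prod _ fun i _ => ?_
    exact (w_meas h).comp ((measurable_pi_apply i).comp (PiLp.continuous_ofLp 2 _).measurable)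

theorem rho_logc (h : LD w) (R : Fin n → Fin n → Prop) (x y : Eu (Fin n)) (t : ℝ) (h0 : 0 < t)
    (h1 : t < 1) : rho w R x ^ (1 - t) * rho w R y ^ t ≤ rho w R ((1 - t) • x + t • y) := by
  by_cases hx : WithLp.ofLp x ∈ ord R
  swap
  · have : rho w R x = 0 := if_neg hx
    rw [this, Real.zero_rpow (by linarith), zero_mul]
    exact rho_nonneg h R _
  by_cases hy : WithLp.ofLp y ∈ ord R
  swap
  · have : rho w R y = 0 := if_neg hy
    rw [this, Real.zero_rpow (by linarith), mul_zero]
    exact rho_nonneg h R _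
  have hz : WithLp.ofLp ((1 - t) • x + t • y) ∈ ord R := by
    intro i j hij
    have e1 := hx i j hij
    have e2 := hy i j hij
    simp only [PiLp.add_apply, PiLp.smul_apply, smul_eq_mul]
    have : 0 < 1 - t := by linarith
    nlinarith [mul_le_mul_of_nonneg_left e1 this.le, mul_le_mul_of_nonneg_left e2 h0.le]
  have ex : rho w R x = ((pn w n) (ord R)).toReal⁻¹ * ∏ i, w (x i) := if_pos hx
  have ey : rho w R y = ((pn w n) (ord R)).toReal⁻¹ * ∏ i, w (y i) := if_pos hy
  have ez : rho w R ((1 - t) • x + t • y) =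
    ((pn w n) (ord R)).toReal⁻¹ * ∏ i, w (((1 - t) • x + t • y) i) := if_pos hz
  rw [ex, ey, ez]
  set q := ((pn w n) (ord R)).toReal⁻¹ with hq
  have hq0 : 0 ≤ q := inv_nonneg.2 ENNReal.toReal_nonneg
  have hpx : 0 ≤ ∏ i, w (x i) := Finset.prod_nonneg fun i _ => h.nonneg _
  have hpy : 0 ≤ ∏ i, w (y i) := Finset.prod_nonneg fun i _ => h.nonneg _
  rw [Real.mul_rpow hq0 hpx, Real.mul_rpow hq0 hpy]
  have e1 : q ^ (1 - t) * (∏ i, w (x i)) ^ (1 - t) * (q ^ t * (∏ i, w (y i)) ^ t) =
      q ^ (1 - t) * q ^ t * ((∏ i, w (x i)) ^ (1 - t) * (∏ i, w (y i)) ^ t) := by ring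
  have e2 : q ^ (1 - t) * q ^ t = q := by
    rw [← Real.rpow_add_of_nonneg hq0 (by linarith) h0.le]
    simp
  rw [e1, e2]
  refine mul_le_mul_of_nonneg_left ?_ hq0
  rw [← Real.finset_prod_rpow _ _ (fun i _ => h.nonneg _),
    ← Real.finset_prod_rpow _ _ (fun i _ => h.nonneg _), ← Finset.prod_mul_distrib]
  refine Finset.prod_le_prod (fun i _ => mul_nonneg (Real.rpow_nonneg (h.nonneg _) _)
    (Real.rpow_nonneg (h.nonneg _) _)) fun i _ => ?_
  exact h.logc (x i) (y i) t h0 h1

theorem law_eq (h : LD w) (R : Fin n → Fin n → Prop) (h0 : pn w n (ord R) ≠ 0) :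
    law w R = volume.withDensity fun x => ENNReal.ofReal (rho w R x) := by
  classical
  have hpn := J4H98.OC.pn_prob h n
  set p := (pn w n) (ord R) with hp
  have hpt : p ≠ ∞ := measure_ne_top _ _
  have hord : MeasurableSet (ord R) := (ord_closed R).measurableSet
  have hm1 : Measurable (WithLp.toLp 2 : (Fin n → ℝ) → Eu (Fin n)) :=
    (PiLp.continuous_toLp 2 _).measurable
  refine Measure.ext fun s hs => ?_
  unfold law
  rw [Measure.map_apply hm1 hs, Measure.smul_apply, ← hp, withDensity_apply _ hs,
    Measure.restrict_apply (hm1 hs), smul_eq_mul, pn_eq h n,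
    withDensity_apply _ ((hm1 hs).inter hord)]
  have hmp : MeasurePreserving (WithLp.toLp 2 : (Fin n → ℝ) → Eu (Fin n)) :=
    PiLp.volume_preserving_toLp (Fin n)
  have hρ : Measurable fun x : Eu (Fin n) => ENNReal.ofReal (rho w R x) :=
    (rho_meas h R).ennreal_ofReal
  rw [← hmp.setLIntegral_comp_preimage hs hρ]
  have e1 : ∀ y : Fin n → ℝ, ENNReal.ofReal (rho w R (WithLp.toLp 2 y)) =
      p⁻¹ * (ord R).indicator (fun y => ∏ i, ENNReal.ofReal (w (y i))) y := by
    intro y
    by_cases hy : y ∈ ord R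
    · rw [indicator_of_mem hy]
      have : rho w R (WithLp.toLp 2 y) = p.toReal⁻¹ * ∏ i, w (y i) := if_pos hy
      rw [this, ENNReal.ofReal_mul (inv_nonneg.2 ENNReal.toReal_nonneg),
        ENNReal.ofReal_prod_of_nonneg (fun i _ => h.nonneg _),
        ENNReal.ofReal_inv_of_pos (ENNReal.toReal_pos h0 hpt), ENNReal.ofReal_toReal hpt]
    · rw [indicator_of_notMem hy, mul_zero]
      have : rho w R (WithLp.toLp 2 y) = 0 := if_neg hy
      rw [this, ENNReal.ofReal_zero]
  simp only [e1]
  have hg : Measurable fun y : Fin n → ℝ => ∏ i, ENNReal.ofReal (w (y i)) :=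
    Finset.measurable_prod _ fun i _ => ((w_meas h).comp (measurable_pi_apply i)).ennreal_ofReal
  rw [lintegral_const_mul _ (hg.indicator hord), setLIntegral_indicator hord, inter_comm]

theorem t_DEN : S_DEN := by
  intro w n R h h0
  have hlaw := law_eq h R h0
  have hP := J4H98.OC.law_prob h R h0
  refine ⟨rho w R, ?_, hlaw⟩
  have h1 : ∫⁻ x, ENNReal.ofReal (rho w R x) = 1 := by
    have := hP.measure_univ
    rw [hlaw, withDensity_apply _ MeasurableSet.univ, Measure.restrict_univ] at this
    exact this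
  have hint : Integrable (rho w R) := by
    refine ⟨(rho_meas h R).aestronglyMeasurable, ?_⟩
    rw [hasFiniteIntegral_iff_ofReal (Eventually.of_forall fun x => rho_nonneg h R x), h1]
    exact ENNReal.one_lt_top
  refine ⟨rho_nonneg h R, rho_meas h R, rho_logc h R, hint, ?_⟩
  rw [integral_eq_lintegral_of_nonneg_ae (Eventually.of_forall fun x => rho_nonneg h R x)
    (rho_meas h R).aestronglyMeasurable, h1, ENNReal.toReal_one]

end Pool.Agent.J4H52.OC
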