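import Pool.Agent.J4H58.OC.Stm2
import Pool.Agent.J4H8.OC.Pf
import Pool.Agent.J4H8.OC.Disc
import Pool.Agent.J4H47.OC.Q

/-!
# The sharp weight (project OC, job GOOD)
-/

set_option autoImplicit false

namespace Pool.Agent.J4H52.OC

open MeasureTheory Set Filter Topology
open Pool.Agent.J4H58.OC
open Pool.Agent.R972.OP (WC)

variable {w : ℝ → ℝ}

theorem shift_Ioi (f : ℝ → ℝ) (s t : ℝ) :
    ∫ v in Ioi t, f (v - (t - s)) = ∫ v in Ioi s, f v := by
  have h := (measurePreserving_sub_right volume (t - s)).setIntegral_preimage_emb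
    (MeasurableEquiv.subRight (t - s)).measurableEmbedding f (Ioi s)
  rw [← h, preimage_sub_const_Ioi]
  congr 2
  ring_nf

theorem shift_Iic (f : ℝ → ℝ) (s t : ℝ) :
    ∫ v in Iic t, f (v - (t - s)) = ∫ v in Iic s, f v := by
  have h := (measurePreserving_sub_right volume (t - s)).setIntegral_preimage_emb
    (MeasurableEquiv.subRight (t - s)).measurableEmbedding f (Iic s)
  rw [← h, preimage_sub_const_Iic]
  congr 2
  ring_nf

theorem w_right (h : LD w) {s t : ℝ} (hst : s ≤ t) :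
    w s * (1 - Fc w t) ≤ w t * (1 - Fc w s) := by
  have h1 : ∫ v in Ioi t, w s * w v ≤ ∫ v in Ioi t, w t * w (v - (t - s)) := by
    apply setIntegral_mono_on (h.int.integrableOn.const_mul _)
      (((h.int.comp_sub_right (t - s)).integrableOn).const_mul _) measurableSet_Ioi
    intro v hv
    have := J4H47.OC.four h (x := s) (y := v) (z := t) hst (le_of_lt hv)
    have e2 : s + v - t = v - (t - s) := by ring
    rwa [e2] at this
  rw [integral_const_mul, integral_const_mul, shift_Ioi, J4H47.OC.fc_Ioi h,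
    J4H47.OC.fc_Ioi h] at h1
  exact h1

theorem w_left (h : LD w) {s t : ℝ} (hst : t ≤ s) :
    w s * Fc w t ≤ w t * Fc w s := by
  have h1 : ∫ v in Iic t, w s * w v ≤ ∫ v in Iic t, w t * w (v - (t - s)) := by
    apply setIntegral_mono_on (h.int.integrableOn.const_mul _)
      (((h.int.comp_sub_right (t - s)).integrableOn).const_mul _) measurableSet_Iic
    intro v hv
    have := J4H47.OC.four h (x := v) (y := s) (z := t) hv hst
    have e2 : v + s - t = v - (t - s) := by ring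
    rw [e2, mul_comm] at this
    exact this
  rw [integral_const_mul, integral_const_mul, shift_Iic] at h1
  exact h1

/-- the profile -/
noncomputable def II (w : ℝ → ℝ) (x : ℝ) : ℝ := w (qt w x)

theorem ii_right (h : LD w) {x y : ℝ} (hx : x ∈ Ioo (0 : ℝ) 1) (hy : y ∈ Ioo (0 : ℝ) 1)
    (hxy : x ≤ y) : II w x * (1 - y) ≤ II w y * (1 - x) := by
  have := w_right h ((J4H47.OC.qt_strict h).monotoneOn hx hy hxy)
  rwa [J4H47.OC.fc_qt h hx, J4H47.OC.fc_qt h hy] at this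

theorem ii_left (h : LD w) {x y : ℝ} (hx : x ∈ Ioo (0 : ℝ) 1) (hy : y ∈ Ioo (0 : ℝ) 1)
    (hxy : y ≤ x) : II w x * y ≤ II w y * x := by
  have := w_left h ((J4H47.OC.qt_strict h).monotoneOn hy hx hxy)
  rwa [J4H47.OC.fc_qt h hx, J4H47.OC.fc_qt h hy] at this

theorem ii_pos (h : LD w) {x : ℝ} (hx : x ∈ Ioo (0 : ℝ) 1) : 0 < II w x :=
  (J4H47.OC.qt_good h hx).1

theorem ii_cont (h : LD w) {x : ℝ} (hx : x ∈ Ioo (0 : ℝ) 1) : ContinuousAt (II w) x :=
  ContinuousAt.comp (g := w) (J4H47.OC.qt_good h hx).2 (J4H47.OC.qt_cont h hx)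

/-- clamp to `[δ, 1 - δ]` -/
noncomputable def cl (δ x : ℝ) : ℝ := max δ (min (1 - δ) x)

theorem cl_mem {δ : ℝ} (h0 : 0 < δ) (h1 : δ < 1 / 2) (x : ℝ) : cl δ x ∈ Ioo (0 : ℝ) 1 := by
  refine ⟨lt_of_lt_of_le h0 (le_max_left _ _), max_lt (by linarith) ?_⟩
  exact lt_of_le_of_lt (min_le_left _ _) (by linarith)

theorem cl_lo {δ x : ℝ} (hx : x ≤ δ) : cl δ x = δ :=
  max_eq_left ((min_le_right _ _).trans hx)

theorem cl_hi {δ x : ℝ} (h1 : δ < 1 / 2) (hx : 1 - δ ≤ x) : cl δ x = 1 - δ := by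
  unfold cl
  rw [min_eq_left hx, max_eq_right (by linarith)]

theorem cl_mid {δ x : ℝ} (h1 : δ ≤ x) (hx : x ≤ 1 - δ) : cl δ x = x := by
  unfold cl
  rw [min_eq_right hx, max_eq_right h1]

theorem cl_ge (h : LD w) {δ : ℝ} (h0 : 0 < δ) (h1 : δ < 1 / 2) {x : ℝ} (hx : x ∈ Ioo (0 : ℝ) 1) :
    (1 - δ) * II w x ≤ II w (cl δ x) := by
  have hp := ii_pos h hx
  have hc := cl_mem h0 h1 x
  have hq := ii_pos h hc
  rcases le_total x δ with hl | hl
  · have e := cl_lo hl
    rw [e] at hc hq ⊢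
    have := ii_right h hx hc hl
    nlinarith [hx.1, hx.2]
  rcases le_total x (1 - δ) with hr | hr
  · rw [cl_mid hl hr]
    nlinarith
  · have e := cl_hi h1 hr
    rw [e] at hc hq ⊢
    have := ii_left h hx hc hr
    nlinarith [hx.1, hx.2]

theorem ct_ge (h : LD w) {δ : ℝ} (h0 : 0 < δ) (h1 : δ < 1 / 2) {x : ℝ} (hx : x ∈ Ioo (0 : ℝ) 1) :
    (1 - 2 * δ) * II w (cl δ x) ≤ II w (δ + (1 - 2 * δ) * x) := by
  have hc := cl_mem h0 h1 x
  have hq := ii_pos h hc
  have hd : 0 < 1 - 2 * δ := by linarith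
  have hy : δ + (1 - 2 * δ) * x ∈ Ioo (0 : ℝ) 1 := by
    constructor
    · nlinarith [mul_pos hd hx.1]
    · nlinarith [mul_pos hd (sub_pos.2 hx.2)]
  have hyp := ii_pos h hy
  -- the two basic cases
  have caseR : ∀ z ∈ Ioo (0 : ℝ) 1, x ≤ z → z ≤ δ + (1 - 2 * δ) * x →
      (1 - 2 * δ) * II w z ≤ II w (δ + (1 - 2 * δ) * x) := by
    intro z hz hxz hzy
    have := ii_right h hz hy hzy
    have hzp := ii_pos h hz
    have hz1 : 0 < 1 - z := by linarith [hz.2]
    have h2 : (1 - 2 * δ) * (1 - z) ≤ 1 - (δ + (1 - 2 * δ) * x) := by nlinarith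
    have h3 : ((1 - 2 * δ) * II w z) * (1 - z) ≤ II w (δ + (1 - 2 * δ) * x) * (1 - z) := by
      calc ((1 - 2 * δ) * II w z) * (1 - z) = II w z * ((1 - 2 * δ) * (1 - z)) := by ring
        _ ≤ II w z * (1 - (δ + (1 - 2 * δ) * x)) := mul_le_mul_of_nonneg_left h2 hzp.le
        _ ≤ _ := this
    exact le_of_mul_le_mul_right h3 hz1
  have caseL : ∀ z ∈ Ioo (0 : ℝ) 1, z ≤ x → δ + (1 - 2 * δ) * x ≤ z →
      (1 - 2 * δ) * II w z ≤ II w (δ + (1 - 2 * δ) * x) := by
    intro z hz hxz hzy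
    have := ii_left h hz hy hzy
    have hzp := ii_pos h hz
    have h2 : (1 - 2 * δ) * z ≤ δ + (1 - 2 * δ) * x := by nlinarith
    have h3 : ((1 - 2 * δ) * II w z) * z ≤ II w (δ + (1 - 2 * δ) * x) * z := by
      calc ((1 - 2 * δ) * II w z) * z = II w z * ((1 - 2 * δ) * z) := by ring
        _ ≤ II w z * (δ + (1 - 2 * δ) * x) := mul_le_mul_of_nonneg_left h2 hzp.le
        _ ≤ _ := this
    exact le_of_mul_le_mul_right h3 hz.1
  rcases le_total x δ with hl | hl
  · have e := cl_lo hl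
    rw [e] at hc ⊢
    exact caseR δ hc hl (by nlinarith [mul_pos hd hx.1])
  rcases le_total x (1 - δ) with hr | hr
  · rw [cl_mid hl hr]
    rcases le_total x (1 / 2) with hm | hm
    · exact caseR x hx le_rfl (by nlinarith)
    · exact caseL x hx le_rfl (by nlinarith)
  · have e := cl_hi h1 hr
    rw [e] at hc ⊢
    exact caseL (1 - δ) hc hr (by nlinarith [mul_pos hd (sub_pos.2 hx.2)])

theorem cl_contOn (h : LD w) {δ : ℝ} (h0 : 0 < δ) (h1 : δ < 1 / 2) :
    Continuous fun x => II w (cl δ x) := by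
  rw [continuous_iff_continuousAt]
  intro x
  have hc : Continuous (cl δ) := by
    unfold cl
    fun_prop
  exact ContinuousAt.comp (g := II w) (ii_cont h (cl_mem h0 h1 x)) hc.continuousAt

theorem one_mono (a b : ℝ → ℝ) (h0 : ∀ x ∈ Ioo (0 : ℝ) 1, 0 ≤ a x)
    (hab : ∀ x ∈ Ioo (0 : ℝ) 1, a x ≤ b x) (hb : Continuous b) (ha : One a) : One b := by
  intro ψ hψ hB
  refine (ha ψ hψ hB).trans ?_
  obtain ⟨B, hB⟩ := hB
  rw [intervalIntegral.integral_of_le zero_le_one, intervalIntegral.integral_of_le zero_le_one,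
    integral_Ioc_eq_integral_Ioo, integral_Ioc_eq_integral_Ioo]
  refine integral_mono_of_nonneg ?_ ?_ ?_
  · filter_upwards [ae_restrict_mem measurableSet_Ioo] with x hx
    exact mul_nonneg (h0 x hx) (sq_nonneg _)
  · have h2 : IntegrableOn b (Ioo 0 1) :=
      (hb.integrableOn_Icc (a := 0) (b := 1)).mono_set Ioo_subset_Icc_self
    refine Integrable.mul_bdd (c := B ^ 2) h2 (hψ.pow_const 2).aestronglyMeasurable ?_
    refine Eventually.of_forall fun x => ?_
    rw [Real.norm_eq_abs, abs_pow]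
    exact pow_le_pow_left₀ (abs_nonneg _) (hB x) 2
  · filter_upwards [ae_restrict_mem measurableSet_Ioo] with x hx
    exact mul_le_mul_of_nonneg_right (hab x hx) (sq_nonneg _)

theorem good_aux (hD : S_DISC) (h : LD w) {K δ η : ℝ} (hK : 0 < K) (h0 : 0 < δ) (h1 : δ < 1 / 2)
    (hη : 0 < η) (hone : One fun x => K * w (qt w x) ^ 2) (K' : ℝ)
    (hb : ∀ x ∈ Ioo (0 : ℝ) 1, (1 + η) * (K * II w (cl δ x) ^ 2 / (1 - δ) ^ 2 + η) *
      (1 - 2 * δ) ^ 2 ≤ K' * II w (δ + (1 - 2 * δ) * x) ^ 2) : Good w K' δ := by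
  set a : ℝ → ℝ := fun x => K * II w (cl δ x) ^ 2 / (1 - δ) ^ 2 with ha
  have hac : Continuous a := by
    have := cl_contOn h h0 h1
    exact ((continuous_const.mul (this.pow 2)).div_const _)
  have ha0 : ∀ x, 0 ≤ a x := fun x => by positivity
  have hdelta : 0 < 1 - δ := by linarith
  have ha1 : One a := by
    refine one_mono _ a (fun x _ => by positivity) (fun x hx => ?_) hac hone
    have h3 := cl_ge h h0 h1 hx
    have h4 := ii_pos h hx
    change K * II w x ^ 2 ≤ K * II w (cl δ x) ^ 2 / (1 - δ) ^ 2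
    rw [le_div_iff₀ (by positivity)]
    have h5 : ((1 - δ) * II w x) ^ 2 ≤ II w (cl δ x) ^ 2 :=
      pow_le_pow_left₀ (by positivity) h3 2
    nlinarith
  refine ⟨fun x => (1 + η) * (a x + η), ?_, ?_, ?_, ?_⟩
  · exact (continuous_const.mul (hac.add continuous_const)).continuousOn
  · intro x _
    have := ha0 x
    positivity
  · filter_upwards [hD a hac.continuousOn (fun x _ => ha0 x) ha1 η hη, eventually_gt_atTop 0]
      with N hN hNpos
    have hNp : (0 : ℝ) < N := by exact_mod_cast hNpos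
    obtain ⟨W, c', m, hW, hc⟩ := J4H8.OC.t_PF N (rt (fun x => a x + η) N) (1 + η) (fun k _ => by
      unfold rt
      have := ha0 (((k : ℝ) + 1) / N)
      positivity) hN
    refine ⟨W, c', m, hW, fun k hk => (hc k hk).trans (le_of_eq ?_)⟩
    unfold rt
    ring
  · intro x hx
    exact hb x hx

theorem t_GOOD_of (hD : S_DISC) : S_GOOD := by
  intro w K h hK hone K' hKK
  -- `K / (1 - δ)²` is below the mean `L` of `K` and `K'`
  set L : ℝ := (K + K') / 2 with hL
  have hKL : K < L := by rw [hL]; linarith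
  have hLK : L < K' := by rw [hL]; linarith
  have ht : Tendsto (fun δ : ℝ => K / (1 - δ) ^ 2) (𝓝[>] 0) (𝓝 K) := by
    have hc : ContinuousAt (fun δ : ℝ => K / (1 - δ) ^ 2) 0 := by
      apply ContinuousAt.div continuousAt_const
      · fun_prop
      · norm_num
    have := hc.tendsto
    simp only [sub_zero, one_pow, div_one] at this
    exact this.mono_left nhdsWithin_le_nhds
  filter_upwards [ht.eventually (gt_mem_nhds hKL), self_mem_nhdsWithin,
    (Ioo_mem_nhdsGT (show (0 : ℝ) < 1 / 2 by norm_num))] with δ hδ h0' h1'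
  have h0 : 0 < δ := h0'
  have h1 : δ < 1 / 2 := h1'.2
  have hd : 0 < 1 - 2 * δ := by linarith
  have hd1 : 0 < 1 - δ := by linarith
  -- a lower bound for the profile on `[δ, 1 - δ]`
  have hs := ii_pos h (x := 1 / 2) ⟨by norm_num, by norm_num⟩
  set m : ℝ := II w (1 / 2) * (δ * (1 - δ)) with hm
  have hmp : 0 < m := by positivity
  have hlow : ∀ y, δ ≤ y → y ≤ 1 - δ → m ≤ II w y := by
    intro y hy1 hy2
    have hy : y ∈ Ioo (0 : ℝ) 1 := ⟨by linarith, by linarith⟩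
    refine le_trans ?_ (J4H47.OC.qt_hazard h (qt w (1 / 2)) hy)
    rw [hm]
    refine mul_le_mul_of_nonneg_left ?_ hs.le
    nlinarith
  -- the choice of `η`
  set η : ℝ := min 1 (min ((K' - L) / (2 * L)) ((K' - L) * m ^ 2 / 4)) with hη
  have hLp : 0 < L := hK.trans hKL
  have hD1 : 0 < K' - L := by linarith
  have hηp : 0 < η := by
    rw [hη]
    refine lt_min one_pos (lt_min ?_ ?_) <;> positivity
  have e1 : η ≤ 1 := min_le_left _ _
  have e2 : η * (2 * L) ≤ K' - L := by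
    have : η ≤ (K' - L) / (2 * L) := (min_le_right _ _).trans (min_le_left _ _)
    rwa [le_div_iff₀ (by positivity)] at this
  have e3 : η ≤ (K' - L) * m ^ 2 / 4 := (min_le_right _ _).trans (min_le_right _ _)
  refine good_aux hD h hK h0 h1 hηp hone K' fun x hx => ?_
  set y : ℝ := δ + (1 - 2 * δ) * x with hy
  have hy1 : δ ≤ y := by rw [hy]; nlinarith [mul_pos hd hx.1]
  have hy2 : y ≤ 1 - δ := by rw [hy]; nlinarith [mul_pos hd (sub_pos.2 hx.2)]
  have hyI := hlow y hy1 hy2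
  have hct := ct_ge h h0 h1 hx
  have hcp := ii_pos h (cl_mem h0 h1 x)
  have q1 : ((1 - 2 * δ) * II w (cl δ x)) ^ 2 ≤ II w y ^ 2 :=
    pow_le_pow_left₀ (by positivity) hct 2
  have q2 : m ^ 2 ≤ II w y ^ 2 := pow_le_pow_left₀ hmp.le hyI 2
  have q3 : (1 - 2 * δ) ^ 2 ≤ 1 := by nlinarith
  have q4 : K / (1 - δ) ^ 2 * ((1 - 2 * δ) * II w (cl δ x)) ^ 2 ≤ L * II w y ^ 2 := by
    calc K / (1 - δ) ^ 2 * ((1 - 2 * δ) * II w (cl δ x)) ^ 2
        ≤ K / (1 - δ) ^ 2 * II w y ^ 2 := mul_le_mul_of_nonneg_left q1 (by positivity)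
      _ ≤ L * II w y ^ 2 := mul_le_mul_of_nonneg_right hδ.le (by positivity)
  have q5 : (1 + η) * (K * II w (cl δ x) ^ 2 / (1 - δ) ^ 2 + η) * (1 - 2 * δ) ^ 2 =
      (1 + η) * (K / (1 - δ) ^ 2 * ((1 - 2 * δ) * II w (cl δ x)) ^ 2) +
        (1 + η) * η * (1 - 2 * δ) ^ 2 := by ring
  rw [q5]
  have q6 : (1 + η) * (K / (1 - δ) ^ 2 * ((1 - 2 * δ) * II w (cl δ x)) ^ 2) ≤
      (1 + η) * (L * II w y ^ 2) := mul_le_mul_of_nonneg_left q4 (by positivity)
  have q7 : (1 + η) * η * (1 - 2 * δ) ^ 2 ≤ 2 * η := by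
    have : (1 + η) * η * (1 - 2 * δ) ^ 2 ≤ (1 + η) * η * 1 :=
      mul_le_mul_of_nonneg_left q3 (by positivity)
    nlinarith
  have q8 : η * L * II w y ^ 2 ≤ (K' - L) / 2 * II w y ^ 2 :=
    mul_le_mul_of_nonneg_right (by linarith) (by positivity)
  have q9 : 2 * η ≤ (K' - L) / 2 * II w y ^ 2 := by
    calc 2 * η ≤ 2 * ((K' - L) * m ^ 2 / 4) := by linarith
      _ = (K' - L) / 2 * m ^ 2 := by ring
      _ ≤ _ := mul_le_mul_of_nonneg_left q2 (by positivity)
  nlinarith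

theorem t_GOOD : S_GOOD := t_GOOD_of Pool.Agent.J4H8.OC.t_DISC

end Pool.Agent.J4H52.OC
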